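import Pool.Agent.H55.PM.Targets

set_option autoImplicit false

open Finset
open Pool.Agent.H55.PM

namespace Pool.Agent.H49.PM.CC

/-- the cluster of index `r` -/
def K (P : ℕ → ℕ) (r : ℕ) : Finset ℕ := Ico (2 ^ 2 ^ r) (2 ^ 2 ^ r + (P (r + 1) - P r))

/-- the first clusters -/
def U (P : ℕ → ℕ) (s : ℕ) : Finset ℕ := (range s).biUnion (K P)

theorem step_le (P : ℕ → ℕ) (hb : ∀ s, P s ≤ 2 ^ s) (r : ℕ) :
    2 ^ 2 ^ r + (P (r + 1) - P r) ≤ 2 ^ 2 ^ (r + 1) := by
  have h1 : P (r + 1) - P r ≤ 2 ^ (r + 1) := (Nat.sub_le _ _).trans (hb _)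
  have h2 : r + 1 ≤ 2 ^ r := Nat.lt_two_pow_self
  have h3 : 2 ^ (r + 1) ≤ 2 ^ 2 ^ r := Nat.pow_le_pow_right (by norm_num) h2
  have h4 : 2 ^ 2 ^ r + 2 ^ 2 ^ r = 2 ^ (2 ^ r + 1) := by ring
  have h5 : 2 ^ (2 ^ r + 1) ≤ 2 ^ 2 ^ (r + 1) := by
    apply Nat.pow_le_pow_right (by norm_num)
    have : 1 ≤ 2 ^ r := Nat.one_le_two_pow
    rw [pow_succ]; omega
  omega

theorem U_lt (P : ℕ → ℕ) (hb : ∀ s, P s ≤ 2 ^ s) (s a : ℕ) (ha : a ∈ U P s) : a < 2 ^ 2 ^ s := by
  simp only [U, mem_biUnion, mem_range, K, mem_Ico] at ha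
  obtain ⟨r, hr, h1, h2⟩ := ha
  have h3 := step_le P hb r
  have h4 : 2 ^ 2 ^ (r + 1) ≤ 2 ^ 2 ^ s :=
    Nat.pow_le_pow_right (by norm_num) (Nat.pow_le_pow_right (by norm_num) hr)
  omega

theorem U_card (P : ℕ → ℕ) (hm : Monotone P) (hb : ∀ s, P s ≤ 2 ^ s) (s : ℕ) :
    (U P s).card + P 0 = P s := by
  induction s with
  | zero => simp [U]
  | succ s ih =>
    have h1 : U P (s + 1) = U P s ∪ K P s := by
      simp [U, range_add_one, biUnion_insert, union_comm]
    have h2 : Disjoint (U P s) (K P s) := by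
      rw [disjoint_left]
      intro a ha hk
      have := U_lt P hb s a ha
      simp only [K, mem_Ico] at hk
      omega
    have h3 : (K P s).card = P (s + 1) - P s := by simp [K]
    have h4 : P s ≤ P (s + 1) := hm (Nat.le_succ s)
    rw [h1, card_union_of_disjoint h2, h3]
    omega

theorem pf_cc : T_CC := by
  intro P hm hb s x h1 h2
  have hfin : (CL P ∩ Set.Icc 1 x).Finite := (Set.finite_Icc 1 x).subset Set.inter_subset_right
  constructor
  · have hsub : (↑(U P s) : Set ℕ) ⊆ CL P ∩ Set.Icc 1 x := by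
      intro a ha
      have ha' : a ∈ U P s := ha
      have hlt := U_lt P hb s a ha'
      simp only [U, mem_biUnion, mem_range, K, mem_Ico] at ha'
      obtain ⟨r, hr, h3, h4⟩ := ha'
      refine ⟨Or.inr ⟨r, h3, h4⟩, ?_, by omega⟩
      have : 1 ≤ 2 ^ 2 ^ r := Nat.one_le_two_pow
      omega
    have h3 := Set.ncard_le_ncard hsub hfin
    rw [Set.ncard_coe_finset] at h3
    have h4 := U_card P hm hb s
    unfold cnt
    omega
  · have hsub : CL P ∩ Set.Icc 1 x ⊆ ↑(insert 1 (U P (s + 1))) := by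
      rintro a ⟨ha, ha1, ha2⟩
      rcases ha with rfl | ⟨r, h3, h4⟩
      · simp
      · have hr : r < s + 1 := by
          by_contra hcon
          have : 2 ^ 2 ^ (s + 1) ≤ 2 ^ 2 ^ r :=
            Nat.pow_le_pow_right (by norm_num) (Nat.pow_le_pow_right (by norm_num) (by omega))
          omega
        rw [coe_insert]
        right
        simp only [U, coe_biUnion, Set.mem_iUnion, K, coe_Ico, mem_coe, mem_range, Set.mem_Ico]
        exact ⟨r, hr, h3, h4⟩
    have h3 := Set.ncard_le_ncard hsub (Finset.finite_toSet _)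
    rw [Set.ncard_coe_finset] at h3
    have h4 := U_card P hm hb (s + 1)
    have h5 : (insert 1 (U P (s + 1))).card ≤ (U P (s + 1)).card + 1 := card_insert_le _ _
    unfold cnt
    omega

end Pool.Agent.H49.PM.CC
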