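import Pool.Agent.H55.PM.Targets

set_option autoImplicit false

open Finset
open Pool.Agent.H55.PM

namespace Pool.Agent.H49.PM.DV

theorem pf_dv : T_DV := by
  classical
  intro V x
  set y := Nat.log 2 (x + 1) with hy
  have hy1 : 2 ^ y ≤ x + 1 := Nat.pow_log_le_self 2 (by omega)
  have hy2 : x + 1 < 2 ^ (y + 1) := Nat.lt_pow_succ_log_self (by norm_num) (x + 1)
  set S : Finset ℕ := (range y).filter (fun b => b ∉ V) with hS
  set R : Finset ℕ := (range y).filter (fun b => b ∈ V) with hR
  have hRS : R.card + S.card = y := by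
    rw [hR, hS, card_filter_add_card_filter_not, card_range]
  have hfin : (V ∩ Set.Iic y).Finite := (Set.finite_Iic y).subset Set.inter_subset_right
  have hv : R.card ≤ (V ∩ Set.Iic y).ncard := by
    have hsub : (↑R : Set ℕ) ⊆ V ∩ Set.Iic y := by
      intro b hb
      rw [mem_coe, hR, mem_filter, mem_range] at hb
      exact ⟨hb.2, le_of_lt hb.1⟩
    have := Set.ncard_le_ncard hsub hfin
    rwa [Set.ncard_coe_finset] at this
  have hfin2 : (AV V ∩ Set.Icc 1 (2 ^ x)).Finite :=
    (Set.finite_Icc 1 (2 ^ x)).subset Set.inter_subset_right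
  have hc : 2 ^ S.card ≤ cnt (AV V) (2 ^ x) := by
    have hsub : (↑(S.powerset.image (fun T : Finset ℕ => 2 ^ (∑ i ∈ T, 2 ^ i))) : Set ℕ) ⊆
        AV V ∩ Set.Icc 1 (2 ^ x) := by
      intro a ha
      rw [mem_coe, mem_image] at ha
      obtain ⟨T, hT, rfl⟩ := ha
      rw [mem_powerset] at hT
      refine ⟨⟨∑ i ∈ T, 2 ^ i, ?_, rfl⟩, Nat.one_le_two_pow, ?_⟩
      · intro b hb
        have h1 : b ∈ (∑ i ∈ T, 2 ^ i).bitIndices.toFinset := List.mem_toFinset.2 hb
        rw [Finset.toFinset_bitIndices_sum_two_pow] at h1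
        have h2 := hT h1
        rw [hS, mem_filter] at h2
        exact h2.2
      · apply Nat.pow_le_pow_right (by norm_num)
        have h1 : ∑ i ∈ T, 2 ^ i < 2 ^ y := by
          apply Nat.geomSum_lt (by norm_num)
          intro k hk
          have h2 := hT hk
          rw [hS, mem_filter, mem_range] at h2
          exact h2.1
        omega
    have h1 := Set.ncard_le_ncard hsub hfin2
    rw [Set.ncard_coe_finset, card_image_of_injOn, card_powerset] at h1
    · exact h1
    · intro T _ T' _ h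
      have h2 : ∑ i ∈ T, 2 ^ i = ∑ i ∈ T', 2 ^ i := Nat.pow_right_injective (le_refl 2) h
      have h3 := congrArg (fun n : ℕ => n.bitIndices.toFinset) h2
      simpa only [Finset.toFinset_bitIndices_sum_two_pow] using h3
  calc x + 1 ≤ 2 ^ (y + 1) := hy2.le
    _ ≤ 2 ^ (1 + (V ∩ Set.Iic y).ncard + S.card) := Nat.pow_le_pow_right (by norm_num) (by omega)
    _ = 2 ^ (1 + (V ∩ Set.Iic y).ncard) * 2 ^ S.card := by rw [pow_add]
    _ ≤ _ := Nat.mul_le_mul_left _ hc

end Pool.Agent.H49.PM.DV
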