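import Pool.Agent.H77.PM.Targets

/-!
MP_5607ba_lc, hereditary classes of Polish metric structures: isomorphisms of the list forms.
-/

set_option autoImplicit false

open Set Filter Topology

namespace Pool.Agent.H49.PM

open Pool.Agent.H77.PM

/-- a code of `S` with finitely many distances: the dense sequence is everything -/
private theorem surj_of_FD (hCLF : T_CLF) {ι : Type} {ar : ι → ℕ} {Z : Type} [TopologicalSpace Z]
    (S : MS ι ar Z) (p : ℕ → S.M) (hp : Enum S p) (h : FD (code S p)) :
    IsClosed (range p) ∧ ∀ m : S.M, ∃ i, p i = m := by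
  have hcl : IsClosed (range p) := hCLF S.M p h
  refine ⟨hcl, fun m => ?_⟩
  have h1 : m ∈ closure (range p) := hp.2 m
  rw [hcl.closure_eq] at h1
  exact h1

/-- (ISL) isomorphisms of the list forms. -/
theorem pf_ISL (hSAM : T_SAM) (hCLF : T_CLF) (hTLL : T_TLL) : T_ISL := by
  intro ι ar Z _ c x
  obtain ⟨hdec, hre, -, -⟩ := @hTLL ι ar Z ⊤ c
  refine ⟨?_, ?_⟩
  · intro y hx hs
    have hs' := hs
    obtain ⟨S, T, ⟨p, hp, rfl⟩, ⟨p', hp', rfl⟩, e, he, -⟩ := hs'
    obtain ⟨hcl, hsur⟩ := surj_of_FD hCLF S p hp hx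
    have hfd : {d : ℝ | ∃ i j, dist (p' i) (p' j) = d}.Finite := by
      refine Set.Finite.subset hx ?_
      rintro d ⟨i, j, rfl⟩
      obtain ⟨k, hk⟩ := hsur (e.symm (p' i))
      obtain ⟨l, hl⟩ := hsur (e.symm (p' j))
      refine ⟨k, l, ?_⟩
      change dist (p k) (p l) = _
      rw [hk, hl, ← he, Equiv.apply_symm_apply, Equiv.apply_symm_apply]
    have hcl' : IsClosed (range p') := hCLF T.M p' hfd
    obtain ⟨g, hg1, hg2⟩ := hSAM ι ar Z S T p p' hp.1 hcl hp'.1 hcl' hs
    have hrg : re (code T p') g = code S p := by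
      refine Prod.ext ?_ ?_
      · funext i j
        exact hg1 i j
      · funext i a
        exact hg2 i a
    refine ⟨g, fun l => ?_⟩
    rw [← hre, hrg]
  · intro S z hS hz
    obtain ⟨p, hp, rfl⟩ := hS
    obtain ⟨g, hg⟩ := hz
    have hz1 : z = tilL c (re (code S p) g.symm) := by
      funext l
      have h1 := hg (l.map g.symm)
      rw [List.map_map] at h1
      have h2 : (g ∘ g.symm : ℕ → ℕ) = id := by
        funext n
        simp
      rw [h2, List.map_id] at h1
      rw [h1, hre]
    have hz2 : decL (ar := ar) z = re (code S p) g.symm := by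
      rw [hz1, hdec]
    have hz3 : re (code S p) g.symm = code S (p ∘ g.symm) := rfl
    have hE : Enum S (p ∘ g.symm) := by
      refine ⟨hp.1.comp g.symm.injective, ?_⟩
      have hd : Dense (range p) := hp.2
      change Dense (range (p ∘ g.symm))
      rwa [g.symm.surjective.range_comp p]
    have hc : IsCode S (decL (ar := ar) z) := ⟨p ∘ g.symm, hE, by rw [hz2, hz3]⟩
    refine ⟨hc, ?_, ?_⟩
    · exact ⟨S, S, ⟨p, hp, rfl⟩, hc, Equiv.refl _, fun a b => rfl, fun i a => rfl⟩
    · rw [hz2]
      exact hz1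

end Pool.Agent.H49.PM
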