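import Pool.Agent.H55.PM.Targets

set_option autoImplicit false

open Finset
open Pool.Agent.H55.PM

namespace Pool.Agent.H49.PM.MC

/-- the possible digit positions of `a` -/
def F (s : ℕ → ℕ) (t₀ x a : ℕ) : Finset ℕ := (Ico t₀ (2 * x + 1)).filter (fun t => s t = a)

/-- the possible values of the multiplicity of `a` -/
def I (s : ℕ → ℕ) (t₀ x a : ℕ) : Finset ℕ :=
  ((F s t₀ x a).pi (fun _ => range 4)).image
    (fun g => ∑ t ∈ (F s t₀ x a).attach, g t.1 t.2 * 2 ^ (t.1 - Nat.clog 2 a))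

theorem card_I (s : ℕ → ℕ) (t₀ x a L : ℕ) (h : load s t₀ (2 * x + 1) a ≤ L) :
    (I s t₀ x a).card ≤ 4 ^ L := by
  unfold I
  refine card_image_le.trans ?_
  rw [card_pi]
  simp only [card_range, prod_const]
  exact Nat.pow_le_pow_right (by norm_num) h

theorem mem_I (s : ℕ → ℕ) (t₀ x a : ℕ) (d : ℕ → ℕ) (hd : ∀ t, d t ≤ 3) :
    ∑ t ∈ F s t₀ x a, d t * 2 ^ (t - Nat.clog 2 a) ∈ I s t₀ x a := by
  unfold I
  rw [mem_image]
  refine ⟨fun t _ => d t, ?_, ?_⟩
  · rw [mem_pi]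
    intro t _
    rw [mem_range]
    have := hd t
    omega
  · exact sum_attach (F s t₀ x a) (fun t => d t * 2 ^ (t - Nat.clog 2 a))

theorem key (A : Set ℕ) (s : ℕ → ℕ) (t₀ x : ℕ)
    (hs : ∀ t ≥ t₀, 0 < s t ∧ s t ∈ A ∧ 2 * Nat.clog 2 (s t) ≤ t) (a T : ℕ) (d : ℕ → ℕ)
    (hd : ∀ t, d t ≤ 3) (h0 : 0 < mu s d t₀ T a) (h1 : mu s d t₀ T a ≤ 2 ^ x) :
    a ∈ A ∧ 1 ≤ a ∧ a ≤ 2 ^ x ∧ mu s d t₀ T a ∈ I s t₀ x a := by
  have step : ∀ t, t₀ ≤ t → t < T → s t = a → d t ≠ 0 → Nat.clog 2 a ≤ x ∧ t ≤ 2 * x := by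
    intro t h2 h3 h4 h5
    have h6 : d t * 2 ^ (t - Nat.clog 2 a) ≤ mu s d t₀ T a := by
      unfold mu
      exact single_le_sum (f := fun t => d t * 2 ^ (t - Nat.clog 2 a)) (fun _ _ => Nat.zero_le _)
        (by simp [h2, h3, h4])
    have h7 : 2 ^ (t - Nat.clog 2 a) ≤ 2 ^ x := by
      have : 1 * 2 ^ (t - Nat.clog 2 a) ≤ d t * 2 ^ (t - Nat.clog 2 a) :=
        Nat.mul_le_mul_right _ (Nat.one_le_iff_ne_zero.2 h5)
      omega
    have h8 : t - Nat.clog 2 a ≤ x := (Nat.pow_le_pow_iff_right (by norm_num)).1 h7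
    have h9 := (hs t h2).2.2
    rw [h4] at h9
    omega
  have hex : ∃ t, t₀ ≤ t ∧ t < T ∧ s t = a ∧ d t ≠ 0 := by
    have h2 : ∑ t ∈ (Ico t₀ T).filter (fun t => s t = a), d t * 2 ^ (t - Nat.clog 2 a) ≠ 0 := by
      unfold mu at h0
      omega
    obtain ⟨t, h3, h4⟩ := exists_ne_zero_of_sum_ne_zero h2
    simp only [mem_filter, mem_Ico] at h3
    refine ⟨t, h3.1.1, h3.1.2, h3.2, ?_⟩
    intro h5
    rw [h5] at h4
    simp at h4
  obtain ⟨t, h2, h3, h4, h5⟩ := hex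
  obtain ⟨h6, h7⟩ := step t h2 h3 h4 h5
  obtain ⟨h8, h9, h10⟩ := hs t h2
  rw [h4] at h8 h9 h10
  refine ⟨h9, h8, ?_, ?_⟩
  · exact (Nat.le_pow_clog (by norm_num) a).trans (Nat.pow_le_pow_right (by norm_num) h6)
  · have heq : mu s d t₀ T a =
        ∑ t ∈ F s t₀ x a, (if t < T then d t else 0) * 2 ^ (t - Nat.clog 2 a) := by
      have e1 : mu s d t₀ T a = ∑ t ∈ (Ico t₀ (max T (2 * x + 1))).filter (fun t => s t = a),
          (if t < T then d t else 0) * 2 ^ (t - Nat.clog 2 a) := by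
        have e2 : mu s d t₀ T a = ∑ t ∈ (Ico t₀ T).filter (fun t => s t = a),
            (if t < T then d t else 0) * 2 ^ (t - Nat.clog 2 a) := by
          unfold mu
          apply sum_congr rfl
          intro u hu
          simp only [mem_filter, mem_Ico] at hu
          rw [if_pos hu.1.2]
        rw [e2]
        apply sum_subset
        · intro u hu
          simp only [mem_filter, mem_Ico] at hu ⊢
          refine ⟨⟨hu.1.1, ?_⟩, hu.2⟩
          exact lt_of_lt_of_le hu.1.2 (le_max_left _ _)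
        · intro u hu hu'
          simp only [mem_filter, mem_Ico] at hu hu'
          have : ¬ u < T := fun hc => hu' ⟨⟨hu.1.1, hc⟩, hu.2⟩
          rw [if_neg this, zero_mul]
      rw [e1]
      symm
      apply sum_subset
      · intro u hu
        simp only [F, mem_filter, mem_Ico] at hu ⊢
        refine ⟨⟨hu.1.1, ?_⟩, hu.2⟩
        exact lt_of_lt_of_le hu.1.2 (le_max_right _ _)
      · intro u hu hu'
        simp only [F, mem_filter, mem_Ico] at hu hu'
        have h11 : ¬ u < 2 * x + 1 := fun hc => hu' ⟨⟨hu.1.1, hc⟩, hu.2⟩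
        by_cases hT : u < T
        · rw [if_pos hT]
          by_cases hdu : d u = 0
          · rw [hdu, zero_mul]
          · exact absurd (step u hu.1.1 hT hu.2 hdu).2 (by omega)
        · rw [if_neg hT, zero_mul]
    rw [heq]
    apply mem_I
    intro t
    split_ifs
    · exact hd t
    · omega

theorem pf_mc : T_MC := by
  intro A s t₀ K₀ x L hs hl
  have hfin : (A ∩ Set.Icc 1 (2 ^ x)).Finite :=
    (Set.finite_Icc 1 (2 ^ x)).subset Set.inter_subset_right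
  have hsub : MS s t₀ K₀ ∩ Set.Icc 1 (2 ^ x) ⊆
      ↑(Icc 1 K₀ ∪ hfin.toFinset.biUnion (I s t₀ x)) := by
    rintro m ⟨⟨h0, hm⟩, h1, h2⟩
    rw [mem_coe, mem_union]
    rcases hm with hm | ⟨a, T, d, hd, rfl⟩
    · left
      rw [mem_Icc]
      exact ⟨h1, hm⟩
    · right
      obtain ⟨k1, k2, k3, k4⟩ := key A s t₀ x hs a T d hd h0 h2
      rw [mem_biUnion]
      refine ⟨a, ?_, k4⟩
      rw [Set.Finite.mem_toFinset]
      exact ⟨k1, k2, k3⟩
  have h3 := Set.ncard_le_ncard hsub (Finset.finite_toSet _)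
  rw [Set.ncard_coe_finset] at h3
  have h4 : (Icc 1 K₀ ∪ hfin.toFinset.biUnion (I s t₀ x)).card ≤
      K₀ + hfin.toFinset.card * 4 ^ L := by
    refine (card_union_le _ _).trans ?_
    have h5 : (Icc 1 K₀).card = K₀ := by simp
    have h6 : (hfin.toFinset.biUnion (I s t₀ x)).card ≤ hfin.toFinset.card * 4 ^ L :=
      card_biUnion_le_card_mul _ _ _ (fun a _ => card_I s t₀ x a L (hl a))
    omega
  have h5 : (A ∩ Set.Icc 1 (2 ^ x)).ncard = hfin.toFinset.card :=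
    Set.ncard_eq_toFinset_card _ hfin
  unfold cnt
  rw [h5]
  exact h3.trans h4

end Pool.Agent.H49.PM.MC
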