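import Pool.Agent.H55.PM.Targets

set_option autoImplicit false

open Finset
open Pool.Agent.H55.PM

namespace Pool.Agent.H49.PM.N1

theorem pf_n1 (htu : T_TU) : T_N1 := by
  rintro A M ⟨_, k, N, hk⟩
  set C0 : ℕ := ∑ n ∈ range N, pc A M n with hC0
  refine ⟨Real.log (1 + C0) / (2 * Real.log 2) + 4 * (k + 1), ?_, ?_⟩
  · have h1 : 0 ≤ Real.log (1 + (C0 : ℝ)) := Real.log_nonneg (by have : (0 : ℝ) ≤ C0 := Nat.cast_nonneg _; linarith)
    have h2 : 0 < Real.log 2 := Real.log_pos (by norm_num)
    positivity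
  intro X Y hX hY
  have h1 := htu A M X Y
  have h2 : ∑ n ∈ range (X * X * Y + 1), pc A M n ≤ C0 + (X * X * Y + 1) ^ (k + 1) := by
    have h3 : ∀ n ∈ range (X * X * Y + 1), pc A M n ≤
        (if n < N then pc A M n else 0) + (X * X * Y + 1) ^ k := by
      intro n hn
      rw [mem_range] at hn
      by_cases hnN : n < N
      · rw [if_pos hnN]; omega
      · rw [if_neg hnN, zero_add]
        exact (hk n (by omega)).trans (Nat.pow_le_pow_left hn.le k)
    refine (sum_le_sum h3).trans ?_
    rw [sum_add_distrib, sum_const, card_range, smul_eq_mul, ← pow_succ']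
    apply Nat.add_le_add_right
    rw [← sum_filter]
    apply sum_le_sum_of_subset
    intro n hn
    rw [mem_filter] at hn
    exact mem_range.2 hn.2
  have h4 : (1 + cnt M Y) ^ cnt A X ≤ (1 + C0) * (X * X * Y + 1) ^ (k + 1) := by
    have h5 : 1 ≤ (X * X * Y + 1) ^ (k + 1) := Nat.one_le_pow _ _ (by omega)
    have h6 : C0 ≤ C0 * (X * X * Y + 1) ^ (k + 1) := Nat.le_mul_of_pos_right _ (by omega)
    have h7 : (1 + C0) * (X * X * Y + 1) ^ (k + 1) =
        (X * X * Y + 1) ^ (k + 1) + C0 * (X * X * Y + 1) ^ (k + 1) := by ring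
    omega
  have hXr : (2 : ℝ) ≤ X := by exact_mod_cast hX
  have hYr : (2 : ℝ) ≤ Y := by exact_mod_cast hY
  have hl2 : 0 < Real.log 2 := Real.log_pos (by norm_num)
  have hlX : Real.log 2 ≤ Real.log X := Real.log_le_log (by norm_num) hXr
  have hlY : Real.log 2 ≤ Real.log Y := Real.log_le_log (by norm_num) hYr
  have hlC : 0 ≤ Real.log (1 + (C0 : ℝ)) := Real.log_nonneg (by have : (0 : ℝ) ≤ C0 := Nat.cast_nonneg _; linarith)
  have h5 : (cnt A X : ℝ) * Real.log (1 + cnt M Y) ≤
      Real.log (1 + C0) + (k + 1) * Real.log (X * X * Y + 1) := by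
    have h6 : ((1 + (cnt M Y : ℝ)) ^ cnt A X) ≤ (1 + (C0 : ℝ)) * ((X : ℝ) * X * Y + 1) ^ (k + 1) := by
      exact_mod_cast h4
    have h7 := Real.log_le_log (by positivity) h6
    rw [Real.log_pow, Real.log_mul (by positivity) (by positivity), Real.log_pow] at h7
    push_cast at h7
    exact h7
  have h6 : Real.log ((X : ℝ) * X * Y + 1) ≤ Real.log 2 + 2 * Real.log X + Real.log Y := by
    have h7 : (X : ℝ) * X * Y + 1 ≤ 2 * (X * X * Y) := by nlinarith [mul_pos (show (0:ℝ) < X by linarith) (show (0:ℝ) < X by linarith)]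
    have h8 := Real.log_le_log (by positivity) h7
    rw [Real.log_mul (by norm_num) (by positivity), Real.log_mul (by positivity) (by positivity),
      Real.log_mul (by positivity) (by positivity)] at h8
    linarith
  have h7 : Real.log (1 + (C0 : ℝ)) ≤
      Real.log (1 + C0) / (2 * Real.log 2) * (Real.log X + Real.log Y) := by
    rw [div_mul_eq_mul_div, le_div_iff₀ (by positivity)]
    apply mul_le_mul_of_nonneg_left _ hlC
    linarith
  have hk0 : (0 : ℝ) ≤ (k : ℝ) + 1 := by positivity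
  have h8 : ((k : ℝ) + 1) * Real.log (X * X * Y + 1) ≤ 4 * (k + 1) * (Real.log X + Real.log Y) := by
    have h9 : ((k : ℝ) + 1) * Real.log (X * X * Y + 1) ≤
        (k + 1) * (Real.log 2 + 2 * Real.log X + Real.log Y) := mul_le_mul_of_nonneg_left h6 hk0
    have h10 : ((k : ℝ) + 1) * (Real.log 2 + 2 * Real.log X + Real.log Y) ≤
        (k + 1) * (4 * (Real.log X + Real.log Y)) := by
      apply mul_le_mul_of_nonneg_left _ hk0
      linarith
    linarith
  linarith

end Pool.Agent.H49.PM.N1
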